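import Pool.Agent.H7.GF.Basic
import Pool.Agent.H7.GF.Targets1
import Pool.Agent.H7.GF.Targets2
import Pool.Agent.H7.GF.Targets3

/-!
# Module E34
-/

set_option autoImplicit false

namespace Pool.Agent.H14.GF

open Polynomial Pool.Agent.H7.GF

/-- divisors of a squarefree number in a short range -/
theorem exists_divisor {H C : ℕ} (hH : 1 ≤ H) (hC : Squarefree C)
    (hbig : (H : ℝ) ^ (201 / 200 : ℝ) < C) :
    (∃ C₁, C₁ ∣ C ∧ H < C₁ ∧ ∀ p, p.Prime → p ∣ C₁ → (H : ℝ) ^ (1 / 400 : ℝ) < p) ∨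
    ∃ C₂, C₂ ∣ C ∧ (H : ℝ) ^ (401 / 400 : ℝ) < C₂ ∧ (C₂ : ℝ) ≤ (H : ℝ) ^ (201 / 200 : ℝ) := by
  classical
  have hH1 : (1 : ℝ) ≤ H := by exact_mod_cast hH
  have hH0 : (0 : ℝ) < H := by linarith
  set P := C.primeFactors with hP
  have hsub : ∀ T : Finset ℕ, T ⊆ P → (∏ p ∈ T, p) ∣ C := by
    intro T hT
    have h1 : (∏ p ∈ T, p) ∣ ∏ p ∈ P, p := Finset.prod_dvd_prod_of_subset _ _ _ hT
    rwa [Nat.prod_primeFactors_of_squarefree hC] at h1
  set L := P.filter (fun p : ℕ => (H : ℝ) ^ (1 / 400 : ℝ) < p) with hL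
  set R := P.filter (fun p : ℕ => ¬ (H : ℝ) ^ (1 / 400 : ℝ) < p) with hR
  by_cases hbL : H < ∏ p ∈ L, p
  · left
    refine ⟨∏ p ∈ L, p, hsub L (Finset.filter_subset _ _), hbL, ?_⟩
    intro p hp hpL
    obtain ⟨q, hq, hpq⟩ := (Prime.dvd_finsetProd_iff hp.prime _).mp hpL
    have hqP : q.Prime := Nat.prime_of_mem_primeFactors (Finset.mem_of_mem_filter _ hq)
    have h1 : p = q := (Nat.prime_dvd_prime_iff_eq hp hqP).mp hpq
    rw [h1]
    exact (Finset.mem_filter.mp hq).2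
  · right
    push Not at hbL
    -- minimal subset
    have hex : ∃ T : Finset ℕ, T ⊆ R ∧ (H : ℝ) ^ (401 / 400 : ℝ) < ((∏ p ∈ L ∪ T, p : ℕ) : ℝ) := by
      refine ⟨R, Finset.Subset.refl _, ?_⟩
      have h1 : L ∪ R = P := Finset.filter_union_filter_not_eq _ _
      rw [h1, Nat.prod_primeFactors_of_squarefree hC]
      refine lt_of_le_of_lt (Real.rpow_le_rpow_of_exponent_le hH1 (by norm_num)) hbig
    obtain ⟨T, ⟨hTR, hTb⟩, hTmin⟩ := exists_minimal_of_wellFoundedLT _ hex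
    have hTne : T.Nonempty := by
      rw [Finset.nonempty_iff_ne_empty]
      intro h0
      rw [h0, Finset.union_empty] at hTb
      have h1 : ((∏ p ∈ L, p : ℕ) : ℝ) ≤ H := by exact_mod_cast hbL
      have h2 : (H : ℝ) ≤ (H : ℝ) ^ (401 / 400 : ℝ) := by
        conv_lhs => rw [← Real.rpow_one (H : ℝ)]
        exact Real.rpow_le_rpow_of_exponent_le hH1 (by norm_num)
      linarith
    obtain ⟨p, hp⟩ := hTne
    have hpR := hTR hp
    have hpL : p ∉ L := by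
      intro h
      exact (Finset.mem_filter.mp hpR).2 (Finset.mem_filter.mp h).2
    have hple : (p : ℝ) ≤ (H : ℝ) ^ (1 / 400 : ℝ) := not_lt.mp (Finset.mem_filter.mp hpR).2
    have hins : L ∪ T = insert p (L ∪ T.erase p) := by
      rw [← Finset.union_insert, Finset.insert_erase hp]
    have hnot : p ∉ L ∪ T.erase p := by
      rw [Finset.mem_union, not_or]
      exact ⟨hpL, Finset.notMem_erase p T⟩
    have hless : ((∏ q ∈ L ∪ T.erase p, q : ℕ) : ℝ) ≤ (H : ℝ) ^ (401 / 400 : ℝ) := by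
      by_contra hcon
      push Not at hcon
      have h1 : T.erase p ⊆ R := (Finset.erase_subset p T).trans hTR
      have h2 := hTmin ⟨h1, hcon⟩ (Finset.erase_subset p T)
      exact Finset.notMem_erase p T (h2 hp)
    refine ⟨∏ q ∈ L ∪ T, q, hsub _ ?_, hTb, ?_⟩
    · exact Finset.union_subset (Finset.filter_subset _ _) (hTR.trans (Finset.filter_subset _ _))
    · rw [hins, Finset.prod_insert hnot]
      push_cast
      push_cast at hless
      calc (p : ℝ) * ∏ q ∈ L ∪ T.erase p, (q : ℝ)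
          ≤ (H : ℝ) ^ (1 / 400 : ℝ) * (H : ℝ) ^ (401 / 400 : ℝ) := by gcongr
        _ = (H : ℝ) ^ (201 / 200 : ℝ) := by
            rw [← Real.rpow_add hH0]; norm_num

theorem deg_count (b : ℤ) (H : ℕ) : cnt 3 H (fun a => (a 2) ^ 2 * b = (a 0) ^ 2) ≤
    2 * (2 * (H : ℝ) + 1) ^ 2 := by
  classical
  have hinj : Set.InjOn (fun a : Fin 3 → ℤ => ((a 1, a 2), decide (0 ≤ a 0)))
      {a | a ∈ box 3 H ∧ (a 2) ^ 2 * b = (a 0) ^ 2} := by
    rintro a ⟨-, ha⟩ a' ⟨-, ha'⟩ h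
    simp only [Prod.mk.injEq, decide_eq_decide] at h
    obtain ⟨⟨h1, h2⟩, h3⟩ := h
    have h4 : (a 0) ^ 2 = (a' 0) ^ 2 := by rw [← ha, ← ha', h2]
    have h5 : a 0 = a' 0 := by
      rcases sq_eq_sq_iff_eq_or_eq_neg.mp h4 with h5 | h5
      · exact h5
      · by_cases h6 : 0 ≤ a 0
        · have h7 := h3.mp h6
          omega
        · have h7 : ¬ 0 ≤ a' 0 := fun h => h6 (h3.mpr h)
          omega
    funext i
    fin_cases i
    · exact h5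
    · exact h1
    · exact h2
  set B : Finset ((ℤ × ℤ) × Bool) :=
    ((Finset.Icc (-(H : ℤ)) H) ×ˢ (Finset.Icc (-(H : ℤ)) H)) ×ˢ Finset.univ with hB
  have hmaps : ∀ a ∈ {a | a ∈ box 3 H ∧ (a 2) ^ 2 * b = (a 0) ^ 2},
      (fun a : Fin 3 → ℤ => ((a 1, a 2), decide (0 ≤ a 0))) a ∈ (B : Set ((ℤ × ℤ) × Bool)) := by
    rintro a ⟨ha, -⟩
    rw [mem_box] at ha
    simp only [hB, Finset.coe_product, Set.mem_prod, Finset.coe_Icc, Set.mem_Icc, Finset.coe_univ,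
      Set.mem_univ, and_true]
    exact ⟨abs_le.mp (ha 1), abs_le.mp (ha 2)⟩
  have h1 := Set.ncard_le_ncard_of_injOn _ hmaps hinj B.finite_toSet
  rw [Set.ncard_coe_finset] at h1
  have h2 : B.card = (2 * H + 1) * (2 * H + 1) * 2 := by
    rw [hB, Finset.card_product, Finset.card_product, Int.card_Icc, Finset.card_univ,
      Fintype.card_bool]
    congr 2 <;> omega
  unfold cnt
  calc (({a | a ∈ box 3 H ∧ (a 2) ^ 2 * b = (a 0) ^ 2}.ncard : ℕ) : ℝ) ≤ (B.card : ℝ) := by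
        exact_mod_cast h1
    _ = 2 * (2 * (H : ℝ) + 1) ^ 2 := by rw [h2]; push_cast; ring

theorem harm (N : ℕ) : ∑ C ∈ Finset.Icc 1 N, (1 : ℝ) / C ≤ 1 + Real.log N := by
  have h1 := harmonic_le_one_add_log N
  rw [harmonic_eq_sum_Icc] at h1
  push_cast at h1
  simpa [one_div] using h1

theorem e34 (hN : T_NC4) (hE : T_E3A) (hO : T_OMG) : T_E34 := by
  intro b hb
  obtain ⟨A, hA1, H₀, hNC⟩ := hN b hb
  obtain ⟨K₁, hK₁⟩ := hE 3 (by norm_num) (by norm_num) b hb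
  obtain ⟨K₂, hK₂⟩ := hO A hA1 (1 / 20000) (by norm_num)
  have hK20 : 0 ≤ K₂ := by
    have := hK₂ 1 le_rfl
    simp [om] at this
    linarith
  have hA0 : 0 < A := by linarith
  refine ⟨|K₁| + 18 + 20001 * A * K₂ + (2 * (H₀ : ℝ) + 1) ^ 3, ?_⟩
  intro H hH
  have hH1 : (1 : ℝ) ≤ H := by exact_mod_cast hH
  have hH0 : (0 : ℝ) < H := by linarith
  by_cases hsmall : H < H₀
  · have h1 := cnt_le_card 3 H (fun a => ∃ C : ℕ, Good b C ∧ (H : ℝ) ^ (201 / 200 : ℝ) < C ∧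
      ∀ p, p.Prime → p ∣ C → IX p 2 (pol b a))
    have h2 : (H : ℝ) ≤ H₀ := by exact_mod_cast hsmall.le
    calc _ ≤ (2 * (H : ℝ) + 1) ^ 3 := h1
      _ ≤ (2 * (H₀ : ℝ) + 1) ^ 3 := by gcongr
      _ = (2 * (H₀ : ℝ) + 1) ^ 3 * 1 := by ring
      _ ≤ (|K₁| + 18 + 20001 * A * K₂ + (2 * (H₀ : ℝ) + 1) ^ 3) * (H : ℝ) ^ 2 := by
          apply mul_le_mul
          · have : 0 ≤ |K₁| + 18 + 20001 * A * K₂ := by positivity
            linarith
          · exact one_le_pow₀ hH1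
          · norm_num
          · positivity
  push Not at hsmall
  set N : ℕ := ⌊(H : ℝ) ^ (201 / 200 : ℝ)⌋₊ with hNdef
  set s : Finset ℕ := (Finset.Icc 1 N).filter (fun C : ℕ => (H : ℝ) ^ (401 / 400 : ℝ) < C) with hs
  set P1 : (Fin 3 → ℤ) → Prop := fun a => ∃ C : ℕ, Good b C ∧ H < C ∧ ∀ p, p.Prime → p ∣ C →
    (H : ℝ) ^ (1 / 400 : ℝ) < p ∧ IX p 2 (pol b a) with hP1
  set P2 : (Fin 3 → ℤ) → Prop := fun a => (a 2) ^ 2 * b = (a 0) ^ 2 with hP2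
  set Q : ℕ → (Fin 3 → ℤ) → Prop := fun C a => Good b C ∧ (a 2) ^ 2 * b ≠ (a 0) ^ 2 ∧
    ∀ p, p.Prime → p ∣ C → IX p 2 (pol b a) with hQ
  have hcover : cnt 3 H (fun a => ∃ C : ℕ, Good b C ∧ (H : ℝ) ^ (201 / 200 : ℝ) < C ∧
      ∀ p, p.Prime → p ∣ C → IX p 2 (pol b a)) ≤
      cnt 3 H P1 + (cnt 3 H P2 + ∑ C ∈ s, cnt 3 H (Q C)) := by
    refine le_trans (cnt_mono (Q := fun a => P1 a ∨ (P2 a ∨ ∃ C ∈ s, Q C a)) ?_) ?_
    · rintro a - ⟨C, hC1, hC2, hC3⟩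
      by_cases hdeg : P2 a
      · exact Or.inr (Or.inl hdeg)
      rcases exists_divisor hH hC1.1 hC2 with ⟨C₁, h1, h2, h3⟩ | ⟨C₂, h1, h2, h3⟩
      · left
        exact ⟨C₁, hC1.dvd h1, h2, fun p hp hpC => ⟨h3 p hp hpC, hC3 p hp (hpC.trans h1)⟩⟩
      · right; right
        refine ⟨C₂, ?_, hC1.dvd h1, hdeg, fun p hp hpC => hC3 p hp (hpC.trans h1)⟩
        rw [hs, Finset.mem_filter, Finset.mem_Icc]
        refine ⟨⟨?_, Nat.le_floor h3⟩, h2⟩
        exact Nat.pos_of_ne_zero (hC1.dvd h1).1.ne_zero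
    · refine le_trans (cnt_or_le _ _) (add_le_add le_rfl ?_)
      refine le_trans (cnt_or_le _ _) (add_le_add le_rfl ?_)
      exact cnt_exists_le s Q
  have hN1 : 1 ≤ N := by
    rw [hNdef]
    apply Nat.le_floor
    rw [Nat.cast_one]
    exact Real.one_le_rpow hH1 (by norm_num)
  have hNle : (N : ℝ) ≤ (H : ℝ) ^ (201 / 200 : ℝ) := Nat.floor_le (by positivity)
  have hNle2 : (N : ℝ) ≤ (H : ℝ) ^ (2 : ℝ) :=
    le_trans hNle (Real.rpow_le_rpow_of_exponent_le hH1 (by norm_num))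
  have hQb : ∀ C ∈ s, cnt 3 H (Q C) ≤
      (A * K₂ * (H : ℝ) ^ (1 / 10000 : ℝ) * (H : ℝ) ^ (2 - 1 / 5000 : ℝ)) * (1 / (C : ℝ)) := by
    intro C hC
    rw [hs, Finset.mem_filter, Finset.mem_Icc] at hC
    obtain ⟨⟨hC1, hC2⟩, hC3⟩ := hC
    have hC0 : (0 : ℝ) < C := by exact_mod_cast hC1
    have hCN : (C : ℝ) ≤ N := by exact_mod_cast hC2
    by_cases hg : Good b C
    · have h1 := hNC H C hsmall hg hC3 (le_trans hCN hNle)
      have h2 : cnt 3 H (Q C) ≤ cnt 3 H (fun a => (a 2) ^ 2 * b ≠ (a 0) ^ 2 ∧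
          ∀ p, p.Prime → p ∣ C → IX p 2 (pol b a)) := cnt_mono fun a _ h => h.2
      refine le_trans h2 (le_trans h1 ?_)
      have h3 : A ^ (om C + 1) ≤ A * K₂ * (H : ℝ) ^ (1 / 10000 : ℝ) := by
        rw [pow_succ, mul_comm, mul_assoc]
        refine mul_le_mul_of_nonneg_left (le_trans (hK₂ C hC1) ?_) hA0.le
        have h4 : (C : ℝ) ^ (1 / 20000 : ℝ) ≤ (H : ℝ) ^ (1 / 10000 : ℝ) := by
          calc (C : ℝ) ^ (1 / 20000 : ℝ) ≤ ((H : ℝ) ^ (2 : ℝ)) ^ (1 / 20000 : ℝ) :=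
                Real.rpow_le_rpow hC0.le (le_trans hCN hNle2) (by norm_num)
            _ = (H : ℝ) ^ (1 / 10000 : ℝ) := by
                rw [← Real.rpow_mul hH0.le]; norm_num
        gcongr
      rw [mul_one_div]
      gcongr
    · have h1 : cnt 3 H (Q C) = 0 := by
        unfold cnt
        have : {a | a ∈ box 3 H ∧ Q C a} = ∅ := by
          ext a
          simp only [Set.mem_ofPred_eq, Set.mem_empty_iff_false, iff_false, not_and]
          exact fun _ h => hg h.1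
        rw [this]; simp
      rw [h1]
      positivity
  have hsum : ∑ C ∈ s, cnt 3 H (Q C) ≤ 20001 * A * K₂ * (H : ℝ) ^ 2 := by
    refine le_trans (Finset.sum_le_sum hQb) ?_
    rw [← Finset.mul_sum]
    have h1 : ∑ C ∈ s, (1 : ℝ) / C ≤ 1 + Real.log N := by
      refine le_trans ?_ (harm N)
      apply Finset.sum_le_sum_of_subset_of_nonneg (Finset.filter_subset _ _)
      intro C _ _
      positivity
    have h2 : Real.log N ≤ 2 * Real.log H := by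
      have h3 := Real.log_le_log (by exact_mod_cast hN1) hNle2
      rwa [Real.log_rpow hH0] at h3
    have h4 := Real.log_le_rpow_div (x := (H : ℝ)) hH0.le (by norm_num : (0 : ℝ) < 1 / 10000)
    have h5 : (1 : ℝ) ≤ (H : ℝ) ^ (1 / 10000 : ℝ) := Real.one_le_rpow hH1 (by norm_num)
    have h6 : ∑ C ∈ s, (1 : ℝ) / C ≤ 20001 * (H : ℝ) ^ (1 / 10000 : ℝ) := by
      have h7 : (H : ℝ) ^ (1 / 10000 : ℝ) / (1 / 10000) = 10000 * (H : ℝ) ^ (1 / 10000 : ℝ) := by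
        ring
      rw [h7] at h4
      linarith
    calc (A * K₂ * (H : ℝ) ^ (1 / 10000 : ℝ) * (H : ℝ) ^ (2 - 1 / 5000 : ℝ)) *
          ∑ C ∈ s, (1 : ℝ) / C
        ≤ (A * K₂ * (H : ℝ) ^ (1 / 10000 : ℝ) * (H : ℝ) ^ (2 - 1 / 5000 : ℝ)) *
          (20001 * (H : ℝ) ^ (1 / 10000 : ℝ)) := by gcongr
      _ = 20001 * A * K₂ * ((H : ℝ) ^ (1 / 10000 : ℝ) * (H : ℝ) ^ (2 - 1 / 5000 : ℝ) *
          (H : ℝ) ^ (1 / 10000 : ℝ)) := by ring
      _ = 20001 * A * K₂ * (H : ℝ) ^ 2 := by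
          rw [← Real.rpow_add hH0, ← Real.rpow_add hH0]
          norm_num
  have hP1b : cnt 3 H P1 ≤ |K₁| * (H : ℝ) ^ 2 := by
    refine le_trans (hK₁ H hH) ?_
    norm_num
    gcongr
    exact le_abs_self _
  have hP2b : cnt 3 H P2 ≤ 18 * (H : ℝ) ^ 2 := by
    refine le_trans (deg_count b H) ?_
    nlinarith
  have hlast : 0 ≤ (2 * (H₀ : ℝ) + 1) ^ 3 * (H : ℝ) ^ 2 := by positivity
  calc _ ≤ cnt 3 H P1 + (cnt 3 H P2 + ∑ C ∈ s, cnt 3 H (Q C)) := hcover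
    _ ≤ |K₁| * (H : ℝ) ^ 2 + (18 * (H : ℝ) ^ 2 + 20001 * A * K₂ * (H : ℝ) ^ 2) := by gcongr
    _ ≤ _ := by
        rw [add_mul]
        linarith

end Pool.Agent.H14.GF
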