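import Pool.Agent.H14.GF.Gen

/-!
# Modules G5A and G6A
-/

set_option autoImplicit false

namespace Pool.Agent.H14.GF

open Polynomial Pool.Agent.H7.GF

theorem natAbs_floor {z : ℤ} {y : ℝ} (h : |(z : ℝ)| ≤ y) : |z| ≤ ((⌊y⌋₊ : ℕ) : ℤ) := by
  have h1 : ((z.natAbs : ℕ) : ℝ) = |(z : ℝ)| := by
    rw [Nat.cast_natAbs, Int.cast_abs]
  have h2 : z.natAbs ≤ ⌊y⌋₊ := Nat.le_floor (by rw [h1]; exact h)
  rw [Int.abs_eq_natAbs]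
  exact_mod_cast h2

theorem root_pow {X : ℝ} (hX : 1 ≤ X) {r : ℝ} {x : ℝ} (hx : x = X ^ (1 / r)) (j : ℕ) :
    X ^ ((j : ℝ) / r) = x ^ j := by
  rw [hx, ← Real.rpow_natCast, ← Real.rpow_mul (by linarith)]
  congr 1; ring

theorem fac_le {c x C : ℝ} {j k : ℕ} {S : ℝ} (hx : 1 ≤ x) (hC : 1 ≤ C) (hCx : C ≤ x ^ k)
    (hkj : k ≤ j) (hS : S ≤ c * x ^ j) : (2 * S + 1) / C + 1 ≤ (2 * c + 2) * x ^ j / C := by
  have hC0 : 0 < C := by linarith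
  rw [div_add_one hC0.ne', div_le_div_iff_of_pos_right hC0]
  have h1 : x ^ k ≤ x ^ j := pow_le_pow_right₀ hx hkj
  have h2 : 1 ≤ x ^ j := one_le_pow₀ hx
  nlinarith

theorem g5a (hS : T_SZT) (hC : T_CLS) (hO : T_OMG) : T_G5A := by
  intro c hc
  obtain ⟨A, hA1, hA⟩ := gen hS hC (m := 4) (by norm_num) (by norm_num)
  obtain ⟨K, hK⟩ := hO A hA1 (2 / 5) (by norm_num)
  have hA0 : 0 ≤ A := by linarith
  have hK0 : 0 ≤ K := by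
    have := hK 1 le_rfl
    simp [om] at this
    linarith
  refine ⟨A * (K * (c * (2 * c + 2) ^ 4)), ?_⟩
  intro X hX
  have hX0 : 0 < X := by linarith
  set x : ℝ := X ^ (1 / (8 : ℝ)) with hx
  have hx1 : 1 ≤ x := Real.one_le_rpow hX (by norm_num)
  have hx0 : 0 < x := by linarith
  have hXx : X = x ^ 8 := by
    have := root_pow hX hx 8
    norm_num at this
    exact this
  have hX3 : X ^ (3 / 8 : ℝ) = x ^ 3 := by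
    have := root_pow hX hx 3
    exact_mod_cast this
  set S : Fin 4 → ℕ := fun i => ⌊c * x ^ (5 - (i : ℕ))⌋₊ with hSdef
  have hSle : ∀ i, (S i : ℝ) ≤ c * x ^ (5 - (i : ℕ)) := fun i => Nat.floor_le (by positivity)
  have hsub : {g : ℤ[X] | g.Monic ∧ g.natDegree = 5 ∧ |(g.coeff 4 : ℝ)| ≤ 5 ∧
      (∀ j, 2 ≤ j → j ≤ 5 → |(g.coeff (5 - j) : ℝ)| ≤ c * X ^ ((j : ℝ) / 8)) ∧
      ∃ (C : ℕ) (k : ℕ → ℕ), Squarefree C ∧ (C : ℝ) ≤ X ^ (3 / 8 : ℝ) ∧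
      (∀ p, p.Prime → p ∣ C → 7 < p ∧ 2 ≤ k p ∧ k p ≤ 4 ∧ IX p (k p) g) ∧
      X ≤ c * ∏ p ∈ C.primeFactors, (p : ℝ) ^ (k p)} ⊆
      {g : ℤ[X] | g.Monic ∧ g.natDegree = 4 + 1 ∧ |g.coeff 4| ≤ ((4 + 1 : ℕ) : ℤ) ∧
      (∀ i : Fin 4, |g.coeff i| ≤ (S i : ℤ)) ∧ ∃ (C : ℕ) (k : ℕ → ℕ), Squarefree C ∧
      C ≤ ⌊x ^ 3⌋₊ ∧ (∀ p, p.Prime → p ∣ C → 7 < p ∧ k p ≤ 4 ∧ IX p (k p) g) ∧
      X ≤ c * ∏ p ∈ C.primeFactors, (p : ℝ) ^ (k p)} := by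
    rintro g ⟨h1, h2, h3, h4, C, k, h5, h6, h7, h8⟩
    refine ⟨h1, h2, ?_, ?_, C, k, h5, ?_, ?_, h8⟩
    · exact_mod_cast h3
    · intro i
      apply natAbs_floor
      have hi := i.2
      have h9 := h4 (5 - (i : ℕ)) (by omega) (by omega)
      have h10 : 5 - (5 - (i : ℕ)) = (i : ℕ) := by omega
      rw [h10, root_pow hX hx] at h9
      exact h9
    · exact Nat.le_floor (by rw [← hX3]; exact h6)
    · intro p hp hpC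
      obtain ⟨h9, -, h10, h11⟩ := h7 p hp hpC
      exact ⟨h9, h10, h11⟩
  obtain ⟨hfin, hmain⟩ := hA c X ⌊x ^ 3⌋₊ S hc hX0
  refine le_trans (by exact_mod_cast Set.ncard_le_ncard hsub hfin) (le_trans hmain ?_)
  rw [mul_assoc A]
  refine mul_le_mul_of_nonneg_left ?_ hA0
  have hterm : ∀ C ∈ Finset.Icc 1 ⌊x ^ 3⌋₊, (∏ i : Fin 4, ((2 * (S i : ℝ) + 1) / C + 1)) *
      (A ^ (om C) * (C : ℝ) ^ 4 * c / X) ≤ K * x ^ (6 / 5 : ℝ) * (c * (2 * c + 2) ^ 4 * x ^ 7) := by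
    intro C hCm
    rw [Finset.mem_Icc] at hCm
    have hC1 : (1 : ℝ) ≤ C := by exact_mod_cast hCm.1
    have hC0 : (0 : ℝ) < C := by linarith
    have hC3 : (C : ℝ) ≤ x ^ 3 := (Nat.le_floor_iff (by positivity)).mp hCm.2
    have h0 := fac_le (S := (S 0 : ℝ)) hx1 hC1 hC3 (by norm_num : 3 ≤ 5) (hSle 0)
    have h1 := fac_le (S := (S 1 : ℝ)) hx1 hC1 hC3 (by norm_num : 3 ≤ 4) (hSle 1)
    have h2 := fac_le (S := (S 2 : ℝ)) hx1 hC1 hC3 (by norm_num : 3 ≤ 3) (hSle 2)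
    have h3 : (2 * (S 3 : ℝ) + 1) / C + 1 ≤ (2 * c + 2) * x ^ 3 / C := by
      have hS3 : (S 3 : ℝ) ≤ c * x ^ 2 := hSle 3
      have h4 : x ^ 2 ≤ x ^ 3 := pow_le_pow_right₀ hx1 (by norm_num)
      exact fac_le hx1 hC1 hC3 le_rfl (le_trans hS3 (by gcongr))
    have hom : A ^ (om C) ≤ K * x ^ (6 / 5 : ℝ) := by
      refine le_trans (hK C hCm.1) ?_
      have h5 : (C : ℝ) ^ (2 / 5 : ℝ) ≤ x ^ (6 / 5 : ℝ) := by
        calc (C : ℝ) ^ (2 / 5 : ℝ) ≤ (x ^ 3) ^ (2 / 5 : ℝ) :=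
              Real.rpow_le_rpow hC0.le hC3 (by norm_num)
          _ = x ^ (6 / 5 : ℝ) := by
              rw [← Real.rpow_natCast, ← Real.rpow_mul hx0.le]
              norm_num
      gcongr
    rw [Fin.prod_univ_four]
    calc ((2 * (S 0 : ℝ) + 1) / C + 1) * ((2 * (S 1 : ℝ) + 1) / C + 1) *
          ((2 * (S 2 : ℝ) + 1) / C + 1) * ((2 * (S 3 : ℝ) + 1) / C + 1) *
          (A ^ (om C) * (C : ℝ) ^ 4 * c / X)
        ≤ ((2 * c + 2) * x ^ 5 / C) * ((2 * c + 2) * x ^ 4 / C) * ((2 * c + 2) * x ^ 3 / C) *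
          ((2 * c + 2) * x ^ 3 / C) * ((K * x ^ (6 / 5 : ℝ)) * (C : ℝ) ^ 4 * c / X) := by
          gcongr
      _ = _ := by
          rw [hXx]
          field_simp
  refine le_trans (Finset.sum_le_card_nsmul _ _ _ hterm) ?_
  rw [Nat.card_Icc, nsmul_eq_mul, Nat.add_sub_cancel]
  have hN : ((⌊x ^ 3⌋₊ : ℕ) : ℝ) ≤ x ^ 3 := Nat.floor_le (by positivity)
  have hlast : X ^ (7 / 5 : ℝ) = x ^ 10 * x ^ (6 / 5 : ℝ) := by
    rw [hXx, ← Real.rpow_natCast, ← Real.rpow_natCast, ← Real.rpow_mul hx0.le,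
      ← Real.rpow_add hx0]
    norm_num
  rw [hlast]
  calc ((⌊x ^ 3⌋₊ : ℕ) : ℝ) * (K * x ^ (6 / 5 : ℝ) * (c * (2 * c + 2) ^ 4 * x ^ 7))
      ≤ x ^ 3 * (K * x ^ (6 / 5 : ℝ) * (c * (2 * c + 2) ^ 4 * x ^ 7)) := by gcongr
    _ = _ := by ring

theorem g6a (hS : T_SZT) (hC : T_CLS) (hO : T_OMG) : T_G6A := by
  intro c hc
  obtain ⟨A, hA1, hA⟩ := gen hS hC (m := 5) (by norm_num) (by norm_num)
  obtain ⟨K, hK⟩ := hO A hA1 (7 / 2) (by norm_num)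
  have hA0 : 0 ≤ A := by linarith
  have hK0 : 0 ≤ K := by
    have := hK 1 le_rfl
    simp [om] at this
    linarith
  refine ⟨A * (K * (c * (2 * c + 2) ^ 5)), ?_⟩
  intro X hX
  have hX0 : 0 < X := by linarith
  set x : ℝ := X ^ (1 / (10 : ℝ)) with hx
  have hx1 : 1 ≤ x := Real.one_le_rpow hX (by norm_num)
  have hx0 : 0 < x := by linarith
  have hXx : X = x ^ 10 := by
    have := root_pow hX hx 10
    norm_num at this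
    exact this
  have hX3 : X ^ (1 / 5 : ℝ) = x ^ 2 := by
    have := root_pow hX hx 2
    rw [← this]
    norm_num
  set S : Fin 5 → ℕ := fun i => ⌊c * x ^ (6 - (i : ℕ))⌋₊ with hSdef
  have hSle : ∀ i, (S i : ℝ) ≤ c * x ^ (6 - (i : ℕ)) := fun i => Nat.floor_le (by positivity)
  have hsub : {g : ℤ[X] | g.Monic ∧ g.natDegree = 6 ∧ |(g.coeff 5 : ℝ)| ≤ 6 ∧
      (∀ j, 2 ≤ j → j ≤ 6 → |(g.coeff (6 - j) : ℝ)| ≤ c * X ^ ((j : ℝ) / 10)) ∧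
      ∃ (C : ℕ) (k : ℕ → ℕ), Squarefree C ∧ (C : ℝ) ≤ X ^ (1 / 5 : ℝ) ∧
      (∀ p, p.Prime → p ∣ C → 7 < p ∧ 2 ≤ k p ∧ k p ≤ 5 ∧ IX p (k p) g) ∧
      X ≤ c * ∏ p ∈ C.primeFactors, (p : ℝ) ^ (k p)} ⊆
      {g : ℤ[X] | g.Monic ∧ g.natDegree = 5 + 1 ∧ |g.coeff 5| ≤ ((5 + 1 : ℕ) : ℤ) ∧
      (∀ i : Fin 5, |g.coeff i| ≤ (S i : ℤ)) ∧ ∃ (C : ℕ) (k : ℕ → ℕ), Squarefree C ∧
      C ≤ ⌊x ^ 2⌋₊ ∧ (∀ p, p.Prime → p ∣ C → 7 < p ∧ k p ≤ 5 ∧ IX p (k p) g) ∧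
      X ≤ c * ∏ p ∈ C.primeFactors, (p : ℝ) ^ (k p)} := by
    rintro g ⟨h1, h2, h3, h4, C, k, h5, h6, h7, h8⟩
    refine ⟨h1, h2, ?_, ?_, C, k, h5, ?_, ?_, h8⟩
    · exact_mod_cast h3
    · intro i
      apply natAbs_floor
      have hi := i.2
      have h9 := h4 (6 - (i : ℕ)) (by omega) (by omega)
      have h10 : 6 - (6 - (i : ℕ)) = (i : ℕ) := by omega
      rw [h10, root_pow hX hx] at h9
      exact h9
    · exact Nat.le_floor (by rw [← hX3]; exact h6)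
    · intro p hp hpC
      obtain ⟨h9, -, h10, h11⟩ := h7 p hp hpC
      exact ⟨h9, h10, h11⟩
  obtain ⟨hfin, hmain⟩ := hA c X ⌊x ^ 2⌋₊ S hc hX0
  refine le_trans (by exact_mod_cast Set.ncard_le_ncard hsub hfin) (le_trans hmain ?_)
  rw [mul_assoc A]
  refine mul_le_mul_of_nonneg_left ?_ hA0
  have hterm : ∀ C ∈ Finset.Icc 1 ⌊x ^ 2⌋₊, (∏ i : Fin 5, ((2 * (S i : ℝ) + 1) / C + 1)) *
      (A ^ (om C) * (C : ℝ) ^ 5 * c / X) ≤ K * x ^ 7 * (c * (2 * c + 2) ^ 5 * x ^ 10) := by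
    intro C hCm
    rw [Finset.mem_Icc] at hCm
    have hC1 : (1 : ℝ) ≤ C := by exact_mod_cast hCm.1
    have hC0 : (0 : ℝ) < C := by linarith
    have hC3 : (C : ℝ) ≤ x ^ 2 := (Nat.le_floor_iff (by positivity)).mp hCm.2
    have h0 := fac_le (S := (S 0 : ℝ)) hx1 hC1 hC3 (by norm_num : 2 ≤ 6) (hSle 0)
    have h1 := fac_le (S := (S 1 : ℝ)) hx1 hC1 hC3 (by norm_num : 2 ≤ 5) (hSle 1)
    have h2 := fac_le (S := (S 2 : ℝ)) hx1 hC1 hC3 (by norm_num : 2 ≤ 4) (hSle 2)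
    have h3 := fac_le (S := (S 3 : ℝ)) hx1 hC1 hC3 (by norm_num : 2 ≤ 3) (hSle 3)
    have h4 := fac_le (S := (S 4 : ℝ)) hx1 hC1 hC3 (by norm_num : 2 ≤ 2) (hSle 4)
    have hom : A ^ (om C) ≤ K * x ^ 7 := by
      refine le_trans (hK C hCm.1) ?_
      have h5 : (C : ℝ) ^ (7 / 2 : ℝ) ≤ x ^ 7 := by
        calc (C : ℝ) ^ (7 / 2 : ℝ) ≤ (x ^ 2) ^ (7 / 2 : ℝ) :=
              Real.rpow_le_rpow hC0.le hC3 (by norm_num)
          _ = x ^ 7 := by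
              rw [← Real.rpow_natCast, ← Real.rpow_natCast, ← Real.rpow_mul hx0.le]
              norm_num
      gcongr
    rw [Fin.prod_univ_five]
    calc ((2 * (S 0 : ℝ) + 1) / C + 1) * ((2 * (S 1 : ℝ) + 1) / C + 1) *
          ((2 * (S 2 : ℝ) + 1) / C + 1) * ((2 * (S 3 : ℝ) + 1) / C + 1) *
          ((2 * (S 4 : ℝ) + 1) / C + 1) * (A ^ (om C) * (C : ℝ) ^ 5 * c / X)
        ≤ ((2 * c + 2) * x ^ 6 / C) * ((2 * c + 2) * x ^ 5 / C) * ((2 * c + 2) * x ^ 4 / C) *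
          ((2 * c + 2) * x ^ 3 / C) * ((2 * c + 2) * x ^ 2 / C) *
          ((K * x ^ 7) * (C : ℝ) ^ 5 * c / X) := by
          gcongr
      _ = _ := by
          rw [hXx]
          field_simp
  refine le_trans (Finset.sum_le_card_nsmul _ _ _ hterm) ?_
  rw [Nat.card_Icc, nsmul_eq_mul, Nat.add_sub_cancel]
  have hN : ((⌊x ^ 2⌋₊ : ℕ) : ℝ) ≤ x ^ 2 := Nat.floor_le (by positivity)
  have hlast : X ^ (19 / 10 : ℝ) = x ^ 19 := by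
    have := root_pow hX hx 19
    exact_mod_cast this
  rw [hlast]
  calc ((⌊x ^ 2⌋₊ : ℕ) : ℝ) * (K * x ^ 7 * (c * (2 * c + 2) ^ 5 * x ^ 10))
      ≤ x ^ 2 * (K * x ^ 7 * (c * (2 * c + 2) ^ 5 * x ^ 10)) := by gcongr
    _ = _ := by ring

end Pool.Agent.H14.GF
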