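import Pool.Agent.H7.GF.Basic
import Pool.Agent.H7.GF.Targets1
import Pool.Agent.H7.GF.Targets2
import Pool.Agent.H7.GF.Targets3

/-!
# Small polynomials with small radical: the general count
-/

set_option autoImplicit false

namespace Pool.Agent.H14.GF

open Polynomial Pool.Agent.H7.GF

theorem eq_polt {m : ℕ} (g : ℤ[X]) (hg : g.Monic) (hd : g.natDegree = m + 1) :
    g = polt (g.coeff m) (fun i : Fin m => g.coeff i) := by
  unfold polt
  conv_lhs => rw [g.as_sum_range_C_mul_X_pow, hd]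
  rw [Finset.sum_range_succ, Finset.sum_range_succ, Finset.sum_range]
  have h1 : g.coeff (m + 1) = 1 := by rw [← hd]; exact hg
  rw [h1]
  simp only [map_one, one_mul]
  ring

theorem toZ_polt (p : ℕ) {m : ℕ} (t : ℤ) (a : Fin m → ℤ) :
    toZ p (polt t a) = polt (t : ZMod p) (red p a) := by
  unfold Pool.Agent.H7.GF.toZ polt red
  simp [Polynomial.map_sum]

/-- the exponents as a total function -/
def ext {C : ℕ} (k : ∀ p ∈ C.primeFactors, ℕ) (p : ℕ) : ℕ :=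
  if h : p ∈ C.primeFactors then k p h else 0

/-- coefficient vectors with given data -/
def AA (m : ℕ) (c X : ℝ) (S : Fin m → ℕ) (t : ℤ) (C : ℕ) (k : ∀ p ∈ C.primeFactors, ℕ) :
    Set (Fin m → ℤ) :=
  {a | Squarefree C ∧ X ≤ c * ∏ p ∈ C.primeFactors, (p : ℝ) ^ (ext k p) ∧
    (∀ i, |a i| ≤ (S i : ℤ)) ∧ ∀ p, p.Prime → p ∣ C → 7 < p ∧ IX p (ext k p) (polt t a)}

theorem box_finite {m : ℕ} (S : Fin m → ℕ) : {a : Fin m → ℤ | ∀ i, |a i| ≤ (S i : ℤ)}.Finite := by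
  have h1 : {a : Fin m → ℤ | ∀ i, |a i| ≤ (S i : ℤ)} ⊆
      Set.pi Set.univ (fun i => Set.Icc (-(S i : ℤ)) (S i)) := by
    intro a ha i _
    exact abs_le.mp (ha i)
  exact (Set.Finite.pi' fun i => Set.finite_Icc _ _).subset (fun a ha i => abs_le.mp (ha i))

theorem AA_finite (m : ℕ) (c X : ℝ) (S : Fin m → ℕ) (t : ℤ) (C : ℕ)
    (k : ∀ p ∈ C.primeFactors, ℕ) : (AA m c X S t C k).Finite :=
  (box_finite S).subset fun _ ha => ha.2.2.1

theorem AA_card (hS : T_SZT) (hC : T_CLS) {m : ℕ} (hm1 : 1 ≤ m) (hm6 : m ≤ 6) : ∃ K : ℝ, 1 ≤ K ∧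
    ∀ (c X : ℝ) (S : Fin m → ℕ) (t : ℤ) (C : ℕ) (k : ∀ p ∈ C.primeFactors, ℕ), 0 < c → 0 < X →
    ((AA m c X S t C k).ncard : ℝ) ≤ (∏ i : Fin m, ((2 * (S i : ℝ) + 1) / C + 1)) *
      (K ^ (om C) * (C : ℝ) ^ m * c / X) := by
  obtain ⟨K, hK⟩ := hS m hm1
  refine ⟨max K 1, le_max_right _ _, ?_⟩
  intro c X S t C k hc hX
  have hprod : 0 ≤ ∏ i : Fin m, ((2 * (S i : ℝ) + 1) / C + 1) :=
    Finset.prod_nonneg fun i _ => by positivity
  by_cases hne : (AA m c X S t C k).Nonempty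
  swap
  · rw [Set.not_nonempty_iff_eq_empty] at hne
    rw [hne]
    simp only [Set.ncard_empty, Nat.cast_zero]
    positivity
  obtain ⟨a₀, hsq, hXc, -, hp0⟩ := hne
  set Z : ∀ p : ℕ, Set (Fin m → ZMod p) := fun p =>
    {a | IXp (ext k p) (polt (t : ZMod p) a)} with hZ
  have hsub : AA m c X S t C k ⊆ {a : Fin m → ℤ | (∀ i, |a i| ≤ (S i : ℤ)) ∧
      ∀ p, p.Prime → p ∣ C → red p a ∈ Z p} := by
    rintro a ⟨-, -, h1, h2⟩
    refine ⟨h1, fun p hp hpC => ?_⟩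
    have h3 := (h2 p hp hpC).2
    unfold IX at h3
    rwa [toZ_polt] at h3
  have h1 : ((AA m c X S t C k).ncard : ℝ) ≤ (∏ i : Fin m, ((2 * (S i : ℝ) + 1) / C + 1)) *
      ∏ p ∈ C.primeFactors, ((Z p).ncard : ℝ) := by
    refine le_trans ?_ (hC m S C Z hsq)
    exact_mod_cast Set.ncard_le_ncard hsub ((box_finite S).subset fun a ha => ha.1)
  refine le_trans h1 (mul_le_mul_of_nonneg_left ?_ hprod)
  have h2 : (∏ p ∈ C.primeFactors, ((Z p).ncard : ℝ)) *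
      ∏ p ∈ C.primeFactors, (p : ℝ) ^ (ext k p) ≤ (max (K : ℝ) 1) ^ (om C) * (C : ℝ) ^ m := by
    rw [← Finset.prod_mul_distrib]
    calc ∏ p ∈ C.primeFactors, (((Z p).ncard : ℝ) * (p : ℝ) ^ (ext k p))
        ≤ ∏ p ∈ C.primeFactors, ((max (K : ℝ) 1) * (p : ℝ) ^ m) := by
          apply Finset.prod_le_prod
          · intro p _; positivity
          · intro p hp
            have hpp := Nat.prime_of_mem_primeFactors hp
            have hpC := Nat.dvd_of_mem_primeFactors hp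
            have : Fact p.Prime := ⟨hpp⟩
            have h3 := hK p (by have := (hp0 p hpp hpC).1; omega) (t : ZMod p) (ext k p)
            have h4 : ((Z p).ncard : ℝ) * (p : ℝ) ^ (ext k p) ≤ (K : ℝ) * (p : ℝ) ^ m := by
              exact_mod_cast h3
            refine le_trans h4 ?_
            gcongr
            exact le_max_left _ _
      _ = (max (K : ℝ) 1) ^ (om C) * (C : ℝ) ^ m := by
          rw [Finset.prod_mul_distrib, Finset.prod_const, Finset.prod_pow]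
          congr 1
          have h5 := Nat.prod_primeFactors_of_squarefree hsq
          have h6 : (∏ p ∈ C.primeFactors, (p : ℝ)) = (C : ℝ) := by
            rw [← Nat.cast_prod, h5]
          rw [h6]
  have hP : 0 < ∏ p ∈ C.primeFactors, (p : ℝ) ^ (ext k p) := by
    apply Finset.prod_pos
    intro p hp
    have := (Nat.prime_of_mem_primeFactors hp).pos
    positivity
  rw [le_div_iff₀ hX]
  have h7 : 0 ≤ ∏ p ∈ C.primeFactors, ((Z p).ncard : ℝ) :=
    Finset.prod_nonneg fun p _ => by positivity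
  calc (∏ p ∈ C.primeFactors, ((Z p).ncard : ℝ)) * X
      ≤ (∏ p ∈ C.primeFactors, ((Z p).ncard : ℝ)) *
        (c * ∏ p ∈ C.primeFactors, (p : ℝ) ^ (ext k p)) := by gcongr
    _ = c * ((∏ p ∈ C.primeFactors, ((Z p).ncard : ℝ)) *
        ∏ p ∈ C.primeFactors, (p : ℝ) ^ (ext k p)) := by ring
    _ ≤ c * ((max (K : ℝ) 1) ^ (om C) * (C : ℝ) ^ m) := by gcongr
    _ = _ := by ring

theorem gen (hS : T_SZT) (hC : T_CLS) {m : ℕ} (hm1 : 1 ≤ m) (hm6 : m ≤ 6) : ∃ A : ℝ, 1 ≤ A ∧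
    ∀ (c X : ℝ) (N : ℕ) (S : Fin m → ℕ), 0 < c → 0 < X →
    {g : ℤ[X] | g.Monic ∧ g.natDegree = m + 1 ∧ |g.coeff m| ≤ ((m + 1 : ℕ) : ℤ) ∧
      (∀ i : Fin m, |g.coeff i| ≤ (S i : ℤ)) ∧ ∃ (C : ℕ) (k : ℕ → ℕ), Squarefree C ∧ C ≤ N ∧
      (∀ p, p.Prime → p ∣ C → 7 < p ∧ k p ≤ m ∧ IX p (k p) g) ∧
      X ≤ c * ∏ p ∈ C.primeFactors, (p : ℝ) ^ (k p)}.Finite ∧
    ({g : ℤ[X] | g.Monic ∧ g.natDegree = m + 1 ∧ |g.coeff m| ≤ ((m + 1 : ℕ) : ℤ) ∧
      (∀ i : Fin m, |g.coeff i| ≤ (S i : ℤ)) ∧ ∃ (C : ℕ) (k : ℕ → ℕ), Squarefree C ∧ C ≤ N ∧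
      (∀ p, p.Prime → p ∣ C → 7 < p ∧ k p ≤ m ∧ IX p (k p) g) ∧
      X ≤ c * ∏ p ∈ C.primeFactors, (p : ℝ) ^ (k p)}.ncard : ℝ) ≤
    A * ∑ C ∈ Finset.Icc 1 N, (∏ i : Fin m, ((2 * (S i : ℝ) + 1) / C + 1)) *
      (A ^ (om C) * (C : ℝ) ^ m * c / X) := by
  obtain ⟨K, hK1, hK⟩ := AA_card hS hC hm1 hm6
  set A : ℝ := ((2 * (m + 1) + 1 : ℕ) : ℝ) * ((m + 1 : ℕ) : ℝ) * K with hA
  have hm0 : (1 : ℝ) ≤ ((m + 1 : ℕ) : ℝ) := by exact_mod_cast Nat.succ_le_succ (Nat.zero_le m)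
  have hm2 : (1 : ℝ) ≤ ((2 * (m + 1) + 1 : ℕ) : ℝ) := by exact_mod_cast Nat.le_add_left _ _
  have hAK : ((m + 1 : ℕ) : ℝ) * K ≤ A := by
    rw [hA, mul_assoc]
    exact le_mul_of_one_le_left (by positivity) hm2
  have hmK : 1 ≤ ((m + 1 : ℕ) : ℝ) * K := by nlinarith
  have hA2 : ((2 * (m + 1) + 1 : ℕ) : ℝ) ≤ A := by
    rw [hA, mul_assoc]
    exact le_mul_of_one_le_right (by positivity) hmK
  refine ⟨A, le_trans hm2 hA2, ?_⟩
  intro c X N S hc hX
  set T : Finset ℤ := Finset.Icc (-((m + 1 : ℕ) : ℤ)) ((m + 1 : ℕ) : ℤ) with hT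
  set U : Set ℤ[X] := ⋃ t ∈ T, ⋃ C ∈ Finset.Icc 1 N,
    ⋃ k ∈ C.primeFactors.pi (fun _ => Finset.range (m + 1)),
      (fun a => polt t a) '' (AA m c X S t C k) with hU
  have hUf : U.Finite := by
    rw [hU]
    refine Set.Finite.biUnion T.finite_toSet fun t _ => ?_
    refine Set.Finite.biUnion (Finset.Icc 1 N).finite_toSet fun C _ => ?_
    refine Set.Finite.biUnion (Finset.finite_toSet _) fun k _ => ?_
    exact (AA_finite m c X S t C k).image _
  have hsub : {g : ℤ[X] | g.Monic ∧ g.natDegree = m + 1 ∧ |g.coeff m| ≤ ((m + 1 : ℕ) : ℤ) ∧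
      (∀ i : Fin m, |g.coeff i| ≤ (S i : ℤ)) ∧ ∃ (C : ℕ) (k : ℕ → ℕ), Squarefree C ∧ C ≤ N ∧
      (∀ p, p.Prime → p ∣ C → 7 < p ∧ k p ≤ m ∧ IX p (k p) g) ∧
      X ≤ c * ∏ p ∈ C.primeFactors, (p : ℝ) ^ (k p)} ⊆ U := by
    rintro g ⟨h1, h2, h3, h4, C, k, h5, h6, h7, h8⟩
    rw [hU]
    simp only [Set.mem_iUnion]
    refine ⟨g.coeff m, ?_, C, ?_, fun p _ => k p, ?_, fun i => g.coeff i, ?_, ?_⟩
    · rw [hT, Finset.mem_Icc]; exact abs_le.mp h3
    · rw [Finset.mem_Icc]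
      exact ⟨Nat.pos_of_ne_zero h5.ne_zero, h6⟩
    · rw [Finset.mem_pi]
      intro p hp
      rw [Finset.mem_range]
      have := (h7 p (Nat.prime_of_mem_primeFactors hp) (Nat.dvd_of_mem_primeFactors hp)).2.1
      omega
    · have hg := eq_polt g h1 h2
      refine ⟨h5, ?_, h4, ?_⟩
      · refine le_trans h8 (le_of_eq ?_)
        congr 1
        apply Finset.prod_congr rfl
        intro p hp
        unfold ext
        rw [dif_pos hp]
      · intro p hp hpC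
        have hmem : p ∈ C.primeFactors := Nat.mem_primeFactors.mpr ⟨hp, hpC, h5.ne_zero⟩
        refine ⟨(h7 p hp hpC).1, ?_⟩
        unfold ext
        rw [dif_pos hmem, ← hg]
        exact (h7 p hp hpC).2.2
    · exact (eq_polt g h1 h2).symm
  have hcard : ∀ t ∈ T, ∀ C ∈ Finset.Icc 1 N,
      ((⋃ k ∈ C.primeFactors.pi (fun _ => Finset.range (m + 1)),
        (fun a => polt t a) '' (AA m c X S t C k)).ncard : ℝ) ≤
      (∏ i : Fin m, ((2 * (S i : ℝ) + 1) / C + 1)) * (A ^ (om C) * (C : ℝ) ^ m * c / X) := by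
    intro t _ C _
    have hprod : 0 ≤ ∏ i : Fin m, ((2 * (S i : ℝ) + 1) / C + 1) :=
      Finset.prod_nonneg fun i _ => by positivity
    have h1 : ((⋃ k ∈ C.primeFactors.pi (fun _ => Finset.range (m + 1)),
        (fun a => polt t a) '' (AA m c X S t C k)).ncard : ℝ) ≤
        ∑ k ∈ C.primeFactors.pi (fun _ => Finset.range (m + 1)),
          (((fun a => polt t a) '' (AA m c X S t C k)).ncard : ℝ) := by
      exact_mod_cast Finset.set_ncard_biUnion_le _ _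
    refine le_trans h1 ?_
    have h2 : ∀ k ∈ C.primeFactors.pi (fun _ => Finset.range (m + 1)),
        (((fun a => polt t a) '' (AA m c X S t C k)).ncard : ℝ) ≤
        (∏ i : Fin m, ((2 * (S i : ℝ) + 1) / C + 1)) * (K ^ (om C) * (C : ℝ) ^ m * c / X) := by
      intro k _
      refine le_trans ?_ (hK c X S t C k hc hX)
      exact_mod_cast Set.ncard_image_le (AA_finite m c X S t C k)
    refine le_trans (Finset.sum_le_card_nsmul _ _ _ h2) ?_
    rw [Finset.card_pi, Finset.prod_const, Finset.card_range, nsmul_eq_mul]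
    calc (((m + 1) ^ C.primeFactors.card : ℕ) : ℝ) *
          ((∏ i : Fin m, ((2 * (S i : ℝ) + 1) / C + 1)) * (K ^ (om C) * (C : ℝ) ^ m * c / X))
        = (∏ i : Fin m, ((2 * (S i : ℝ) + 1) / C + 1)) *
          ((((m + 1 : ℕ) : ℝ) * K) ^ (om C) * (C : ℝ) ^ m * c / X) := by
          rw [mul_pow]
          unfold om
          push_cast
          ring
      _ ≤ _ := by gcongr
  have hU2 : (U.ncard : ℝ) ≤ ∑ t ∈ T, ∑ C ∈ Finset.Icc 1 N,
      (∏ i : Fin m, ((2 * (S i : ℝ) + 1) / C + 1)) * (A ^ (om C) * (C : ℝ) ^ m * c / X) := by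
    calc (U.ncard : ℝ) ≤ ∑ t ∈ T, ((⋃ C ∈ Finset.Icc 1 N,
          ⋃ k ∈ C.primeFactors.pi (fun _ => Finset.range (m + 1)),
          (fun a => polt t a) '' (AA m c X S t C k)).ncard : ℝ) := by
          exact_mod_cast Finset.set_ncard_biUnion_le T _
      _ ≤ _ := by
          apply Finset.sum_le_sum
          intro t ht
          calc ((⋃ C ∈ Finset.Icc 1 N, ⋃ k ∈ C.primeFactors.pi (fun _ => Finset.range (m + 1)),
                (fun a => polt t a) '' (AA m c X S t C k)).ncard : ℝ)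
              ≤ ∑ C ∈ Finset.Icc 1 N, ((⋃ k ∈ C.primeFactors.pi (fun _ => Finset.range (m + 1)),
                (fun a => polt t a) '' (AA m c X S t C k)).ncard : ℝ) := by
                exact_mod_cast Finset.set_ncard_biUnion_le _ _
            _ ≤ _ := Finset.sum_le_sum fun C hCm => hcard t ht C hCm
  have h9 := Set.ncard_le_ncard hsub hUf
  refine ⟨hUf.subset hsub, ?_⟩
  refine le_trans (by exact_mod_cast h9) (le_trans hU2 ?_)
  rw [Finset.sum_const, nsmul_eq_mul]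
  have h10 : (T.card : ℝ) ≤ A := by
    refine le_trans (le_of_eq ?_) hA2
    rw [hT, Int.card_Icc]
    congr 1
    omega
  refine mul_le_mul_of_nonneg_right h10 ?_
  apply Finset.sum_nonneg
  intro C _
  have hA0 : 0 ≤ A := by linarith
  have hprod : 0 ≤ ∏ i : Fin m, ((2 * (S i : ℝ) + 1) / C + 1) :=
    Finset.prod_nonneg fun i _ => by positivity
  positivity

end Pool.Agent.H14.GF
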